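import Pool.Agent.Helper67.RG.EStmts

/-! # NORM: the ring `B` is integrally closed -/

open Polynomial

namespace Pool.Agent.Helper27.RG

open Pool.Agent.Helper67.RG

section

variable {ν : ℕ} {D : Pell ν} (T : Tower D)

/-- `E 0` as a subalgebra. -/
noncomputable def NORM_E0 : Subalgebra (RatFunc ℂ) Om where
  carrier := T.E 0
  mul_mem' := fun ha hb => T.E_mul (m := 0) (n := 0) ha hb
  add_mem' := fun ha hb => Submodule.add_mem _ ha hb
  algebraMap_mem' := fun c => T.alg_mem_E c

theorem NORM_inv {m : ℕ} {z : Om} (hz : z ∈ T.E m) : z⁻¹ ∈ T.E m := by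
  by_cases h0 : z = 0
  · rw [h0, inv_zero]
    exact Submodule.zero_mem _
  have h1 : z ^ 2 ∈ T.E 0 := by
    rw [T.E_congr (m := 0) (n := m + m) (by omega), pow_two]
    exact T.E_mul hz hz
  have h2 : ((z ^ 2)⁻¹ : Om) ∈ NORM_E0 T :=
    Subalgebra.inv_mem_of_algebraic (A := NORM_E0 T) (x := ⟨z ^ 2, h1⟩)
      (Algebra.IsAlgebraic.isAlgebraic _)
  have h3 : z⁻¹ = z * (z ^ 2)⁻¹ := by
    field_simp
  rw [h3]
  have h4 := T.E_mul (m := m) (n := 0) hz h2
  rwa [add_zero] at h4

theorem NORM_coeff (c : Om[X]) (hc : ∀ m, c.coeff m ∈ T.E m) (hc0 : c ≠ 0) :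
    ∀ (n : ℕ) (Q : Om[X]), Q.natDegree ≤ n → (∀ m, (c * Q).coeff m ∈ T.E m) →
      ∀ m, Q.coeff m ∈ T.E m := by
  have hmul : ∀ P : Om[X], (∀ m, P.coeff m ∈ T.E m) → ∀ m, (c * P).coeff m ∈ T.E m := by
    intro P hP m
    rw [coeff_mul]
    refine Submodule.sum_mem _ fun p hp => ?_
    rw [← Finset.HasAntidiagonal.mem_antidiagonal.mp hp]
    exact T.E_mul (hc _) (hP _)
  have hlead : ∀ Q : Om[X], (∀ m, (c * Q).coeff m ∈ T.E m) → Q.leadingCoeff ∈ T.E Q.natDegree := by
    intro Q hQ
    by_cases hQ0 : Q = 0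
    · rw [hQ0, leadingCoeff_zero]
      exact Submodule.zero_mem _
    have h1 : (c * Q).leadingCoeff ∈ T.E (c * Q).natDegree := hQ _
    rw [natDegree_mul hc0 hQ0, leadingCoeff_mul] at h1
    have h2 : c.leadingCoeff ∈ T.E c.natDegree := hc _
    have h3 := T.E_mul h1 (NORM_inv T h2)
    have h4 : c.leadingCoeff * Q.leadingCoeff * (c.leadingCoeff)⁻¹ = Q.leadingCoeff := by
      have := leadingCoeff_ne_zero.mpr hc0
      field_simp
    rw [h4] at h3
    rw [T.E_congr (m := Q.natDegree) (n := c.natDegree + Q.natDegree + c.natDegree) (by omega)]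
    exact h3
  intro n
  induction n with
  | zero =>
    intro Q hQn hQ m
    have h0 : Q.natDegree = 0 := Nat.le_zero.mp hQn
    by_cases hm : m = 0
    · subst hm
      have := hlead Q hQ
      unfold leadingCoeff at this
      rw [h0] at this
      exact this
    · rw [coeff_eq_zero_of_natDegree_lt (by omega)]
      exact Submodule.zero_mem _
  | succ n ih =>
    intro Q hQn hQ m
    by_cases hQn' : Q.natDegree ≤ n
    · exact ih Q hQn' hQ m
    have hmon : ∀ m, (monomial Q.natDegree Q.leadingCoeff : Om[X]).coeff m ∈ T.E m := by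
      intro m
      rw [coeff_monomial]
      split_ifs with h
      · rw [← h]
        exact hlead Q hQ
      · exact Submodule.zero_mem _
    have h1 : (Q.eraseLead).natDegree ≤ n := by
      have := eraseLead_natDegree_le Q
      omega
    have h3 : Q = Q.eraseLead + monomial Q.natDegree Q.leadingCoeff :=
      (eraseLead_add_monomial_natDegree_leadingCoeff Q).symm
    have h4 : Q.eraseLead = Q - monomial Q.natDegree Q.leadingCoeff := by
      linear_combination -h3
    have h2 := ih Q.eraseLead h1 (fun m => by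
      rw [h4, mul_sub, coeff_sub]
      exact Submodule.sub_mem _ (hQ m) (hmul _ hmon m)) m
    rw [h3, coeff_add]
    exact Submodule.add_mem _ h2 (hmon m)

/-- The field of rational functions in `X` over `Ω`. -/
abbrev NORM_L : Type := FractionRing Om[X]

theorem NORM_core (a c : Om[X]) (ha : a ∈ T.B) (hc : c ∈ T.B) (hc0 : c ≠ 0) (z : NORM_L)
    (hz : IsIntegral A0 z) (h : algebraMap Om[X] NORM_L c * z = algebraMap Om[X] NORM_L a) :
    ∃ Q ∈ T.B, a = c * Q := by
  have hinj : Function.Injective (algebraMap Om[X] NORM_L) := IsFractionRing.injective _ _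
  have h1 : IsIntegral Om[X] z := hz.tower_top
  obtain ⟨Q, rfl⟩ := IsIntegrallyClosed.isIntegral_iff.mp h1
  have h2 : a = c * Q := by
    apply hinj
    rw [map_mul, h]
  have h3 : IsIntegral A0 Q := (isIntegral_algebraMap_iff hinj).mp hz
  refine ⟨Q, ?_, h2⟩
  rw [T.mem_B]
  refine ⟨h3, NORM_coeff T c (T.mem_B.mp hc).2 hc0 Q.natDegree Q le_rfl ?_⟩
  rw [← h2]
  exact (T.mem_B.mp ha).2

theorem NORM_closed : IsIntegrallyClosed T.B := by
  rw [isIntegrallyClosed_iff (FractionRing T.B)]
  intro x hx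
  have hinjB : Function.Injective ((algebraMap Om[X] NORM_L).comp (T.B.val : T.B →+* Om[X])) := by
    intro u v huv
    exact Subtype.ext (IsFractionRing.injective Om[X] NORM_L huv)
  let φ : FractionRing T.B →+* NORM_L := IsFractionRing.lift hinjB
  have hφ : ∀ b : T.B, φ (algebraMap T.B (FractionRing T.B) b) =
      algebraMap Om[X] NORM_L (b : Om[X]) := fun b => IsFractionRing.lift_algebraMap hinjB b
  obtain ⟨a, c, hc, hac⟩ := IsFractionRing.div_surjective (A := T.B) x
  have hc0 : c ≠ 0 := nonZeroDivisors.ne_zero hc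
  have hc0' : algebraMap T.B (FractionRing T.B) c ≠ 0 := by
    intro h0
    apply hc0
    exact IsFractionRing.injective T.B (FractionRing T.B) (by rw [h0, map_zero])
  have hcx : algebraMap T.B (FractionRing T.B) c * x = algebraMap T.B (FractionRing T.B) a := by
    rw [← hac]
    field_simp
  -- integrality of the image
  have hint : IsIntegral A0 (φ x) := by
    have hmem : ∀ b : T.B, algebraMap Om[X] NORM_L (b : Om[X]) ∈ integralClosure A0 NORM_L := by
      intro b
      have h1 : IsIntegral A0 (b : Om[X]) := (T.mem_B.mp b.2).1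
      exact h1.map (Algebra.ofId Om[X] NORM_L |>.restrictScalars A0)
    obtain ⟨p, hp, hpx⟩ := hx
    let ψ : T.B →+* integralClosure A0 NORM_L :=
      ((algebraMap Om[X] NORM_L).comp (T.B.val : T.B →+* Om[X])).codRestrict
        (integralClosure A0 NORM_L) hmem
    have h2 : IsIntegral (integralClosure A0 NORM_L) (φ x) := by
      refine ⟨p.map ψ, hp.map ψ, ?_⟩
      rw [eval₂_map]
      have h3 := congrArg φ hpx
      rw [hom_eval₂, map_zero] at h3
      have h4 : (algebraMap (integralClosure A0 NORM_L) NORM_L).comp ψ =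
          φ.comp (algebraMap T.B (FractionRing T.B)) := by
        refine RingHom.ext fun b => ?_
        exact (hφ b).symm
      rw [h4]
      exact h3
    exact isIntegral_trans (R := A0) (A := integralClosure A0 NORM_L) (φ x) h2
  obtain ⟨Q, hQ, haQ⟩ := NORM_core T (a : Om[X]) (c : Om[X]) a.2 c.2
    (fun h => hc0 (Subtype.ext h)) (φ x) hint (by rw [← hφ, ← hφ, ← map_mul, hcx])
  refine ⟨⟨Q, hQ⟩, ?_⟩
  have h5 : a = c * ⟨Q, hQ⟩ := Subtype.ext haQ
  apply mul_left_cancel₀ hc0'
  rw [hcx, h5, map_mul]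

end

theorem st_NORM : ST_NORM := fun _ _ T => NORM_closed T

end Pool.Agent.Helper27.RG
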