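import Pool.Agent.Helper67.RG.EStmts

/-! # PELL: existence of Pell data -/

open Polynomial

namespace Pool.Agent.Helper27.RG

open Pool.Agent.Helper67.RG

theorem PELL_omega : ∃ ω : ℂ, ω ^ 2 + ω + 1 = 0 := by
  obtain ⟨s, hs⟩ := IsAlgClosed.exists_pow_nat_eq (-3 : ℂ) (n := 2) (by norm_num)
  refine ⟨(-1 + s) / 2, ?_⟩
  linear_combination (1 / 4) * hs

theorem PELL_cube (ω : ℂ) (hω : ω ^ 2 + ω + 1 = 0) (c : ℂ) :
    (X - C c) * (X - C (c * ω)) * (X - C (c * ω ^ 2)) = (X ^ 3 - C (c ^ 3) : ℂ[X]) := by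
  have h3 : (C ω ^ 2 + C ω + 1 : ℂ[X]) = 0 := by
    rw [← C_pow, ← C_add, ← C_1, ← C_add, hω, C_0]
  simp only [C_mul, C_pow]
  linear_combination (-(X ^ 2) * C c + X * C c ^ 2 * C ω - C c ^ 3 * (C ω - 1)) * h3

theorem PELL_quad (f : ℂ[X]) (hf : f.Monic) (hd : f.natDegree = 2) :
    ∃ α β : ℂ, f = (X - C α) * (X - C β) := by
  obtain ⟨α, hα⟩ := IsAlgClosed.exists_root f (by
    rw [degree_eq_natDegree hf.ne_zero, hd]; norm_num)
  obtain ⟨g, hg⟩ := dvd_iff_isRoot.mpr hα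
  have hgm : g.Monic := by
    have := hf
    rw [hg] at this
    exact Monic.of_mul_monic_left (monic_X_sub_C α) this
  have hgd : g.natDegree = 1 := by
    rw [hg, natDegree_mul (X_sub_C_ne_zero α) hgm.ne_zero, natDegree_X_sub_C] at hd
    omega
  refine ⟨α, -g.coeff 0, ?_⟩
  rw [C_neg, sub_neg_eq_add, ← Monic.eq_X_add_C hgm hgd]
  exact hg

/-- the twelve numbers -/
noncomputable def PELL_lam (c : Fin 4 → ℂ) (ω : ℂ) (i : Fin 12) : ℂ :=
  c ⟨(i : ℕ) / 3, by omega⟩ * ω ^ ((i : ℕ) % 3)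

theorem PELL_prod1 (c : Fin 4 → ℂ) (ω : ℂ) (hω : ω ^ 2 + ω + 1 = 0) :
    ∏ i ∈ I1, (X - C (PELL_lam c ω i)) =
      (X ^ 3 - C (c 0 ^ 3)) * (X ^ 3 - C (c 1 ^ 3) : ℂ[X]) := by
  rw [← PELL_cube ω hω, ← PELL_cube ω hω]
  have h : I1 = {0, 1, 2, 3, 4, 5} := by decide
  rw [h]
  rw [Finset.prod_insert (by decide), Finset.prod_insert (by decide),
    Finset.prod_insert (by decide), Finset.prod_insert (by decide),
    Finset.prod_insert (by decide), Finset.prod_singleton]
  have e0 : PELL_lam c ω 0 = c 0 := by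
    change c 0 * ω ^ 0 = c 0
    ring
  have e1 : PELL_lam c ω 1 = c 0 * ω := by
    change c 0 * ω ^ 1 = c 0 * ω
    ring
  have e2 : PELL_lam c ω 2 = c 0 * ω ^ 2 := rfl
  have e3 : PELL_lam c ω 3 = c 1 := by
    change c 1 * ω ^ 0 = c 1
    ring
  have e4 : PELL_lam c ω 4 = c 1 * ω := by
    change c 1 * ω ^ 1 = c 1 * ω
    ring
  have e5 : PELL_lam c ω 5 = c 1 * ω ^ 2 := rfl
  rw [e0, e1, e2, e3, e4, e5]
  ring

theorem PELL_prod2 (c : Fin 4 → ℂ) (ω : ℂ) (hω : ω ^ 2 + ω + 1 = 0) :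
    ∏ i ∈ I2, (X - C (PELL_lam c ω i)) =
      (X ^ 3 - C (c 2 ^ 3)) * (X ^ 3 - C (c 3 ^ 3) : ℂ[X]) := by
  rw [← PELL_cube ω hω, ← PELL_cube ω hω]
  have h : I2 = {6, 7, 8, 9, 10, 11} := by decide
  rw [h]
  rw [Finset.prod_insert (by decide), Finset.prod_insert (by decide),
    Finset.prod_insert (by decide), Finset.prod_insert (by decide),
    Finset.prod_insert (by decide), Finset.prod_singleton]
  have e0 : PELL_lam c ω 6 = c 2 := by
    change c 2 * ω ^ 0 = c 2
    ring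
  have e1 : PELL_lam c ω 7 = c 2 * ω := by
    change c 2 * ω ^ 1 = c 2 * ω
    ring
  have e2 : PELL_lam c ω 8 = c 2 * ω ^ 2 := rfl
  have e3 : PELL_lam c ω 9 = c 3 := by
    change c 3 * ω ^ 0 = c 3
    ring
  have e4 : PELL_lam c ω 10 = c 3 * ω := by
    change c 3 * ω ^ 1 = c 3 * ω
    ring
  have e5 : PELL_lam c ω 11 = c 3 * ω ^ 2 := rfl
  rw [e0, e1, e2, e3, e4, e5]
  ring

theorem PELL_inj (c : Fin 4 → ℂ) (ω : ℂ) (hω : ω ^ 2 + ω + 1 = 0) (hc0 : ∀ j, c j ≠ 0)
    (hc : Function.Injective fun j => c j ^ 3) : Function.Injective (PELL_lam c ω) := by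
  have hω3 : ω ^ 3 = 1 := by linear_combination (ω - 1) * hω
  have hω0 : ω ≠ 0 := by
    rintro rfl
    norm_num at hω
  have hω1 : ω ≠ 1 := by
    rintro rfl
    norm_num at hω
  intro i j hij
  have h1 : (⟨(i : ℕ) / 3, by omega⟩ : Fin 4) = ⟨(j : ℕ) / 3, by omega⟩ := by
    apply hc
    change c _ ^ 3 = c _ ^ 3
    have h2 := congrArg (fun z : ℂ => z ^ 3) hij
    simp only [PELL_lam, mul_pow, ← pow_mul, mul_comm _ 3] at h2
    rw [pow_mul ω 3, pow_mul ω 3, hω3, one_pow, one_pow, mul_one, mul_one] at h2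
    exact h2
  have h3 : (i : ℕ) / 3 = (j : ℕ) / 3 := congrArg Fin.val h1
  have h4 : ω ^ ((i : ℕ) % 3) = ω ^ ((j : ℕ) % 3) := by
    simp only [PELL_lam] at hij
    rw [h1] at hij
    exact mul_left_cancel₀ (hc0 _) hij
  have h5 : (i : ℕ) % 3 = (j : ℕ) % 3 := by
    have hi : (i : ℕ) % 3 < 3 := Nat.mod_lt _ (by norm_num)
    have hj : (j : ℕ) % 3 < 3 := Nat.mod_lt _ (by norm_num)
    have hω2 : ω ^ 2 ≠ 1 := by
      intro h
      apply hω1
      have h7 : ω = -2 := by linear_combination hω - h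
      rw [h7] at h
      norm_num at h
    have hω21 : ω ^ 2 ≠ ω := by
      intro h
      apply hω1
      have h7 : ω * (ω - 1) = 0 := by linear_combination h
      rcases mul_eq_zero.mp h7 with h8 | h8
      · exact absurd h8 hω0
      · linear_combination h8
    have hne : ∀ m n : ℕ, m < 3 → n < 3 → ω ^ m = ω ^ n → m = n := by
      intro m n hm hn h
      interval_cases m <;> interval_cases n
      · rfl
      · exact absurd (by linear_combination -h) hω1
      · exact absurd (by linear_combination -h) hω2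
      · exact absurd (by linear_combination h) hω1
      · rfl
      · exact absurd (by linear_combination -h) hω21
      · exact absurd (by linear_combination h) hω2
      · exact absurd (by linear_combination h) hω21
      · rfl
    exact hne _ _ hi hj h4
  apply Fin.ext
  omega

theorem st_PELL (hHALF : ST_HALF) (hUNIT : ST_UNIT) (hSPLIT : ST_SPLIT) : ST_PELL := by
  intro k hk
  have hν : 2 ≤ 2 ^ k := by
    calc 2 = 2 ^ 1 := by norm_num
      _ ≤ 2 ^ k := Nat.pow_le_pow_right (by norm_num) hk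
  obtain ⟨T, hT⟩ := hHALF (k + 1)
  have h2 : 2 ^ (k + 1) = 2 * 2 ^ k := by rw [pow_succ, mul_comm]
  rw [h2] at hT
  obtain ⟨f, a, b, hf, hf4, hfs, hab, ha, hmin⟩ := hUNIT (2 * 2 ^ k) (by omega) ⟨T, hT⟩
  obtain ⟨f1, f2, p, q, hff, hf1, hf2, hd1, hd2, hpq, hdp, hdq⟩ :=
    hSPLIT (2 ^ k) hν f a b hf hf4 hfs hab ha hmin
  obtain ⟨α, β, hαβ⟩ := PELL_quad f1 hf1 hd1
  obtain ⟨γ, δ, hγδ⟩ := PELL_quad f2 hf2 hd2
  let ρ : Fin 4 → ℂ := ![α, β, γ, δ]
  have hfprod : f = ∏ j, (X - C (ρ j)) := by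
    rw [hff, hαβ, hγδ, Fin.prod_univ_four]
    simp only [ρ, Matrix.cons_val_zero, Matrix.cons_val_one, Matrix.cons_val]
    ring
  have hρ : Function.Injective ρ := by
    intro i j hij
    by_contra hne
    have h1 : (X - C (ρ i)) * (X - C (ρ i)) ∣ f := by
      rw [hfprod, ← Finset.mul_prod_erase Finset.univ _ (Finset.mem_univ i),
        ← Finset.mul_prod_erase _ _ (Finset.mem_erase.mpr ⟨fun h => hne h.symm,
          Finset.mem_univ j⟩), ← hij, ← mul_assoc]
      exact dvd_mul_right _ _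
    exact not_isUnit_X_sub_C (ρ i) (hfs _ h1)
  obtain ⟨κ, hκ⟩ : ∃ κ, f.eval κ ≠ 0 := by
    by_contra hc
    push Not at hc
    exact hf.ne_zero (Polynomial.funext fun κ => by rw [hc κ, eval_zero])
  have hκρ : ∀ j, ρ j - κ ≠ 0 := by
    intro j h
    apply hκ
    rw [hfprod, eval_prod]
    refine Finset.prod_eq_zero (Finset.mem_univ j) ?_
    rw [eval_sub, eval_X, eval_C]
    linear_combination -h
  choose c hc using fun j => IsAlgClosed.exists_pow_nat_eq (ρ j - κ) (n := 3) (by norm_num)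
  obtain ⟨ω, hω⟩ := PELL_omega
  have hc0 : ∀ j, c j ≠ 0 := by
    intro j h
    apply hκρ j
    rw [← hc j, h]
    norm_num
  have hcomp : ∀ g : ℂ[X], (g.comp (X + C κ)).comp (X - C κ) = g := by
    intro g
    rw [comp_assoc]
    simp
  refine ⟨{
    hν := hν
    f1 := f1.comp (X + C κ)
    f2 := f2.comp (X + C κ)
    p := p.comp (X + C κ)
    q := q.comp (X + C κ)
    lam := PELL_lam c ω
    inj := PELL_inj c ω hω hc0 fun i j hij => hρ (by
      have h1 : c i ^ 3 = c j ^ 3 := hij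
      rw [hc, hc] at h1
      linear_combination h1)
    m1 := hf1.comp_X_add_C κ
    m2 := hf2.comp_X_add_C κ
    d1 := by rw [natDegree_comp, natDegree_X_add_C, mul_one, hd1]
    d2 := by rw [natDegree_comp, natDegree_X_add_C, mul_one, hd2]
    h1 := by
      rw [PELL_prod1 c ω hω, hc, hc, hαβ]
      simp only [mul_comp, sub_comp, X_comp, C_comp, add_comp, ρ, Matrix.cons_val_zero,
        Matrix.cons_val_one, C_sub]
      ring
    h2 := by
      rw [PELL_prod2 c ω hω, hc, hc, hγδ]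
      simp only [mul_comp, sub_comp, X_comp, C_comp, add_comp, ρ, Matrix.cons_val, C_sub]
      ring
    pq := by
      have := congrArg (fun g : ℂ[X] => g.comp (X + C κ)) hpq
      simpa only [sub_comp, mul_comp, pow_comp, one_comp] using this
    dp := by rw [natDegree_comp, natDegree_X_add_C, mul_one, hdp]
    dq := by rw [natDegree_comp, natDegree_X_add_C, mul_one, hdq]
    min := ?_ }⟩
  intro a' b' c' hc' h hb'
  have h1 := hmin (a'.comp (X - C κ)) (b'.comp (X - C κ)) c' hc' (by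
    have h3 := congrArg (fun g : ℂ[X] => g.comp (X - C κ)) h
    simp only [sub_comp, mul_comp, pow_comp, C_comp, hcomp] at h3
    rw [hff]
    exact h3) (by
    intro h0
    apply hb'
    have h4 : b' = (b'.comp (X - C κ)).comp (X + C κ) := by
      rw [comp_assoc]
      simp
    rw [h4, h0, zero_comp])
  rw [natDegree_comp, natDegree_X_sub_C, mul_one] at h1
  exact h1

end Pool.Agent.Helper27.RG
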