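import Pool.Agent.Helper67.RG.EStmts

/-! # SPLIT: splitting the Pell equation -/

open Polynomial

namespace Pool.Agent.Helper27.RG

open Pool.Agent.Helper67.RG

theorem SPLIT_sq (u : ℂ[X]) (hu : IsUnit u) : ∃ s : ℂ, s ≠ 0 ∧ u = C s ^ 2 := by
  obtain ⟨c, hc, rfl⟩ := Polynomial.isUnit_iff.mp hu
  obtain ⟨s, hs⟩ := IsAlgClosed.exists_pow_nat_eq c (n := 2) (by norm_num)
  refine ⟨s, ?_, ?_⟩
  · rintro rfl
    apply hc.ne_zero
    rw [← hs]
    norm_num
  · rw [← C_pow, hs]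

theorem SPLIT_square (u v b : ℂ[X]) (huv : IsCoprime u v) (h : u * v = b ^ 2) :
    ∃ q : ℂ[X], u = q ^ 2 := by
  obtain ⟨d, e, he⟩ := exists_associated_pow_of_mul_eq_pow' huv h
  obtain ⟨s, -, hs⟩ := SPLIT_sq _ e.isUnit
  exact ⟨d * C s, by rw [mul_pow, ← hs, he]⟩

theorem st_SPLIT : ST_SPLIT := by
  intro ν hν f a b hf hf4 _ hab ha hmin
  have hb0 : b ≠ 0 := by
    rintro rfl
    have h1 : a ^ 2 = 1 := by rw [← hab]; ring
    have h2 : (a ^ 2).natDegree = 2 * (2 * ν) := by rw [natDegree_pow, ha]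
    rw [h1, natDegree_one] at h2
    omega
  have hdvd : f ∣ (a - 1) * (a + 1) := ⟨b ^ 2, by linear_combination hab⟩
  obtain ⟨g1, g2, ⟨u', hu'⟩, ⟨v', hv'⟩, hfg⟩ := exists_dvd_and_dvd_of_dvd_mul hdvd
  -- normalise
  obtain ⟨f1, f2, u1, v1, hf1, hf2, hff, hu1, hv1⟩ : ∃ f1 f2 u1 v1 : ℂ[X], f1.Monic ∧ f2.Monic ∧
      f = f1 * f2 ∧ a - 1 = f1 * u1 ∧ a + 1 = f2 * v1 := by
    have hg1 : g1 ≠ 0 := by
      rintro rfl
      rw [zero_mul] at hfg
      exact hf.ne_zero hfg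
    have hl : g1.leadingCoeff ≠ 0 := leadingCoeff_ne_zero.mpr hg1
    have hl2 : g1.leadingCoeff * g2.leadingCoeff = 1 := by
      rw [← leadingCoeff_mul, ← hfg]
      exact hf
    have hCC : (C g1.leadingCoeff⁻¹ * C g1.leadingCoeff : ℂ[X]) = 1 := by
      rw [← C_mul, inv_mul_cancel₀ hl, C_1]
    refine ⟨C g1.leadingCoeff⁻¹ * g1, C g1.leadingCoeff * g2, C g1.leadingCoeff * u',
      C g1.leadingCoeff⁻¹ * v', ?_, ?_, ?_, ?_, ?_⟩
    · unfold Monic
      rw [leadingCoeff_mul, leadingCoeff_C, inv_mul_cancel₀ hl]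
    · unfold Monic
      rw [leadingCoeff_mul, leadingCoeff_C, hl2]
    · rw [hfg]
      linear_combination -(g1 * g2) * hCC
    · rw [hu']
      linear_combination -(g1 * u') * hCC
    · rw [hv']
      linear_combination -(g2 * v') * hCC
  have hprod : u1 * v1 = b ^ 2 := by
    have h1 : f * (u1 * v1) = f * b ^ 2 := by
      calc f * (u1 * v1) = (f1 * u1) * (f2 * v1) := by rw [hff]; ring
        _ = (a - 1) * (a + 1) := by rw [← hu1, ← hv1]
        _ = f * b ^ 2 := by linear_combination hab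
    exact mul_left_cancel₀ hf.ne_zero h1
  have hcop : IsCoprime u1 v1 := by
    refine ⟨-(C (1 / 2)) * f1, C (1 / 2) * f2, ?_⟩
    have h2 : (C (1 / 2 : ℂ) * 2 : ℂ[X]) = 1 := by
      rw [show (2 : ℂ[X]) = C 2 from rfl, ← C_mul]
      norm_num
    linear_combination C (1 / 2 : ℂ) * hu1 - C (1 / 2 : ℂ) * hv1 + h2
  obtain ⟨q1, hq1⟩ := SPLIT_square u1 v1 b hcop hprod
  obtain ⟨p1, hp1⟩ := SPLIT_square v1 u1 b hcop.symm (by rw [mul_comm]; exact hprod)
  obtain ⟨s, hs⟩ := IsAlgClosed.exists_pow_nat_eq (1 / 2 : ℂ) (n := 2) (by norm_num)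
  have hs0 : s ≠ 0 := by
    rintro rfl
    norm_num at hs
  have hpq : f2 * (C s * p1) ^ 2 - f1 * (C s * q1) ^ 2 = 1 := by
    have h1 : f2 * p1 ^ 2 - f1 * q1 ^ 2 = 2 := by
      rw [← hq1, ← hp1, ← hu1, ← hv1]
      ring
    have h2 : (C s ^ 2 : ℂ[X]) * 2 = 1 := by
      rw [← C_pow, hs, show (2 : ℂ[X]) = C 2 from rfl, ← C_mul]
      norm_num
    linear_combination C s ^ 2 * h1 + h2
  -- degrees
  have hda : (a - 1).natDegree = 2 * ν := by
    rw [← C_1, natDegree_sub_C, ha]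
  have hda' : (a + 1).natDegree = 2 * ν := by
    rw [← C_1, natDegree_add_C, ha]
  have hq0 : q1 ≠ 0 := by
    rintro rfl
    rw [hq1] at hu1
    rw [hu1] at hda
    simp at hda
    omega
  have hp0 : p1 ≠ 0 := by
    rintro rfl
    rw [hp1] at hv1
    rw [hv1] at hda'
    simp at hda'
    omega
  have hd1 : f1.natDegree + 2 * q1.natDegree = 2 * ν := by
    rw [← hda, hu1, hq1, natDegree_mul hf1.ne_zero (pow_ne_zero 2 hq0), natDegree_pow]
  have hd2 : f2.natDegree + 2 * p1.natDegree = 2 * ν := by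
    rw [← hda', hv1, hp1, natDegree_mul hf2.ne_zero (pow_ne_zero 2 hp0), natDegree_pow]
  have hd4 : f1.natDegree + f2.natDegree = 4 := by
    rw [← hf4, hff, natDegree_mul hf1.ne_zero hf2.ne_zero]
  have hdp : (C s * p1).natDegree = p1.natDegree := natDegree_C_mul hs0
  have hdq : (C s * q1).natDegree = q1.natDegree := natDegree_C_mul hs0
  have hp0' : C s * p1 ≠ 0 := mul_ne_zero (C_ne_zero.mpr hs0) hp0
  have hq0' : C s * q1 ≠ 0 := mul_ne_zero (C_ne_zero.mpr hs0) hq0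
  have hcase0 : f1.natDegree ≠ 0 := by
    intro h0
    have h1 : f1 = 1 := by
      have := hf1
      exact eq_one_of_monic_natDegree_zero this h0
    rw [h1] at hff hpq
    rw [one_mul] at hff
    have h2 := hmin (C s * q1) (C s * p1) (-1) (by norm_num) (by
      rw [hff, C_neg, C_1]
      linear_combination -hpq) hp0'
    omega
  have hcase4 : f2.natDegree ≠ 0 := by
    intro h0
    have h1 : f2 = 1 := eq_one_of_monic_natDegree_zero hf2 h0
    rw [h1] at hff hpq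
    rw [mul_one] at hff
    have h2 := hmin (C s * p1) (C s * q1) 1 (by norm_num) (by
      rw [hff, C_1]
      linear_combination hpq) hq0'
    omega
  exact ⟨f1, f2, C s * p1, C s * q1, hff, hf1, hf2, by omega, by omega, hpq, by omega, by omega⟩

end Pool.Agent.Helper27.RG
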